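import Mathlib
import Pool.Agent.H354R2.CubicTwo
import Pool.Agent.H354R2.Pratt

/-!
There is an odd `k ≥ 3` which is not a Sierpiński number such that no prime of the form
`k * 2 ^ n + 1` (`n ≥ 1`) divides a Fermat number.

We take `k = 3 s²` with `s = 20346391362401231511353107561`.
* If `n` is even, `p = k * 2 ^ n + 1 = 3 t² + 1` with `3 ∤ t`; if such a `p` is prime then `2` is not
  a cube modulo `p`, whereas `p ∣ F_m` would force the order of `2` modulo `p` to be a power of `2`.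
* If `n` is odd, `k * 2 ^ n + 1` is divisible by one of the primes
  `5, 7, 11, 31, 73, 97, 151, 193, 241, 433, 577, 631, 673, 1153, 1321` (a covering system).
* `k * 2 ^ 8 + 1` is prime.
-/

namespace Pool.Agent.Results.MP_74da6d_nt.NoFermatFactor

open Pool.Agent.H354R2

/-- triples `(p, m, a)`: `p` divides `k * 2 ^ (2 * j + 1) + 1` whenever `j % m = a` -/
def cover : List (ℕ × ℕ × ℕ) :=
  [(5, 2, 1), (7, 3, 1), (11, 5, 4), (31, 5, 3), (73, 9, 6), (241, 12, 2), (151, 15, 6),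
   (97, 24, 8), (673, 24, 20), (1321, 30, 12), (433, 36, 18), (631, 45, 30), (193, 48, 12),
   (577, 72, 0), (1153, 144, 36)]

def s0 : ℕ := 20346391362401231511353107561

lemma cover_check : ∀ x ∈ cover, 1 < x.1 ∧ x.1 < 1400 ∧ 720 % x.2.1 = 0 ∧
    2 ^ (2 * x.2.1) % x.1 = 1 ∧ (3 * s0 ^ 2 * 2 ^ (2 * x.2.2 + 1) + 1) % x.1 = 0 := by
  decide +kernel

lemma cover_all : ∀ r < 720, ∃ x ∈ cover, r % x.2.1 = x.2.2 := by
  decide +kernel

lemma cov_dvd (k p m a j : ℕ) (h1 : 2 ^ (2 * m) % p = 1)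
    (h2 : (k * 2 ^ (2 * a + 1) + 1) % p = 0) (hj : j % m = a) :
    p ∣ k * 2 ^ (2 * j + 1) + 1 := by
  have h1' : (2 : ZMod p) ^ (2 * m) = 1 := by
    have : ((2 ^ (2 * m) % p : ℕ) : ZMod p) = 1 := by rw [h1]; simp
    rw [ZMod.natCast_mod] at this
    exact_mod_cast this
  have h2' : (k : ZMod p) * 2 ^ (2 * a + 1) + 1 = 0 := by
    have : ((k * 2 ^ (2 * a + 1) + 1 : ℕ) : ZMod p) = 0 := by
      rw [ZMod.natCast_eq_zero_iff]
      exact Nat.dvd_of_mod_eq_zero h2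
    exact_mod_cast this
  rw [← ZMod.natCast_eq_zero_iff]
  push_cast
  have hj' : 2 * j + 1 = 2 * m * (j / m) + (2 * a + 1) := by
    have := Nat.div_add_mod j m
    rw [hj] at this
    nlinarith
  rw [hj', pow_add, pow_mul, h1', one_pow, one_mul]
  exact h2'

lemma odd_case (j : ℕ) : ¬ (3 * s0 ^ 2 * 2 ^ (2 * j + 1) + 1).Prime := by
  obtain ⟨x, hx, hxr⟩ := cover_all (j % 720) (Nat.mod_lt _ (by norm_num))
  obtain ⟨hp1, hp2, hdiv, hA, hB⟩ := cover_check x hx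
  have hj : j % x.2.1 = x.2.2 := by
    rw [← hxr, Nat.mod_mod_of_dvd]
    exact Nat.dvd_of_mod_eq_zero hdiv
  have hd := cov_dvd (3 * s0 ^ 2) x.1 x.2.1 x.2.2 j hA hB hj
  intro hprime
  rcases (Nat.dvd_prime hprime).mp hd with h | h
  · omega
  · have h1 : 1 ≤ 2 ^ (2 * j + 1) := Nat.one_le_two_pow
    have h2 : 1400 ≤ 3 * s0 ^ 2 := by norm_num [s0]
    have : 1400 * 1 ≤ 3 * s0 ^ 2 * 2 ^ (2 * j + 1) := Nat.mul_le_mul h2 h1
    omega

lemma even_case (i m : ℕ) (hp : (3 * s0 ^ 2 * 2 ^ (2 * i) + 1).Prime) :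
    ¬ (3 * s0 ^ 2 * 2 ^ (2 * i) + 1 ∣ 2 ^ 2 ^ m + 1) := by
  intro hdvd
  set p := 3 * s0 ^ 2 * 2 ^ (2 * i) + 1 with hpdef
  have hpt : p = 3 * (s0 * 2 ^ i) ^ 2 + 1 := by
    rw [hpdef, mul_pow, ← pow_mul, mul_comm i 2]; ring
  have ht : ¬ 3 ∣ s0 * 2 ^ i := by
    intro h
    rcases (Nat.Prime.dvd_mul Nat.prime_three).mp h with h | h
    · revert h; norm_num [s0]
    · have := Nat.prime_three.dvd_of_dvd_pow h
      omega
  apply CubicTwo.two_not_cube hp hpt ht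
  have h1 : (2 : ZMod p) ^ 2 ^ m = -1 := by
    have : ((2 ^ 2 ^ m + 1 : ℕ) : ZMod p) = 0 := (ZMod.natCast_eq_zero_iff _ _).mpr hdvd
    push_cast at this
    linear_combination this
  have h2 : (2 : ZMod p) ^ 2 ^ (m + 1) = 1 := by
    rw [pow_succ, pow_mul, h1]; ring
  have h3 : 2 ^ (m + 1) % 3 = 1 ∨ 2 ^ (m + 1) % 3 = 2 := by
    have : ¬ 3 ∣ 2 ^ (m + 1) := fun h => by
      have := Nat.prime_three.dvd_of_dvd_pow h
      omega
    omega
  have : Fact p.Prime := ⟨hp⟩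
  rcases h3 with h3 | h3
  · have h4 : 2 ^ (m + 1) = 2 ^ (m + 1) / 3 * 3 + 1 := by omega
    rw [h4, pow_add, pow_mul, pow_one] at h2
    refine ⟨((2 : ZMod p) ^ (2 ^ (m + 1) / 3))⁻¹, ?_⟩
    rw [inv_pow]
    exact (eq_inv_of_mul_eq_one_right h2).symm
  · have h4 : 2 ^ (m + 1) = 2 ^ (m + 1) / 3 * 3 + 2 := by omega
    rw [h4, pow_add, pow_mul] at h2
    refine ⟨2 * (2 : ZMod p) ^ (2 ^ (m + 1) / 3), ?_⟩
    rw [mul_pow]
    linear_combination 2 * h2

lemma prime_small : ∀ q ∈ [2, 3, 7, 71, 66919, 448169, 344819, 5154509], Nat.Prime q := by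
  intro q hq
  fin_cases hq <;> norm_num

lemma prime_a : Nat.Prime 11034209 :=
  pratt _ 3 30 [2, 2, 2, 2, 2, 344819] (fun q hq => prime_small q (by
    simp only [List.mem_cons, List.not_mem_nil, or_false] at hq ⊢; tauto)) (by decide +kernel)

lemma prime_b : Nat.Prime 10247163893 :=
  pratt _ 2 40 [2, 2, 7, 71, 5154509] (fun q hq => prime_small q (by
    simp only [List.mem_cons, List.not_mem_nil, or_false] at hq ⊢; tauto)) (by decide +kernel)

lemma prime_c : Nat.Prime 304045059884356184511919 := by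
  refine pratt _ 15 90 [2, 3, 448169, 11034209, 10247163893] ?_ (by decide +kernel)
  intro q hq
  simp only [List.mem_cons, List.not_mem_nil, or_false] at hq
  rcases hq with rfl | rfl | rfl | rfl | rfl
  · norm_num
  · norm_num
  · norm_num
  · exact prime_a
  · exact prime_b

lemma prime_d : Nat.Prime (3 * s0 ^ 2 * 2 ^ 8 + 1) := by
  refine pratt _ 13 210 [2, 2, 2, 2, 2, 2, 2, 2, 3, 66919, 66919,
    304045059884356184511919, 304045059884356184511919] ?_ (by decide +kernel)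
  intro q hq
  simp only [List.mem_cons, List.not_mem_nil, or_false] at hq
  have h2 : Nat.Prime 2 := Nat.prime_two
  have h3 : Nat.Prime 3 := Nat.prime_three
  have h4 : Nat.Prime 66919 := by norm_num
  have h5 := prime_c
  rcases hq with rfl | rfl | rfl | rfl | rfl | rfl | rfl | rfl | rfl | rfl | rfl | rfl | rfl <;>
    assumption

/-- There is an odd `k ≥ 3`, not a Sierpiński number, such that no Fermat number
`F_m = 2 ^ (2 ^ m) + 1` has a prime factor of the form `k * 2 ^ n + 1`, `n ≥ 1`. -/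
theorem result : ∃ k : ℕ, Odd k ∧ 3 ≤ k ∧ (∃ n : ℕ, 1 ≤ n ∧ (k * 2 ^ n + 1).Prime) ∧
    ∀ m n : ℕ, 1 ≤ n → (k * 2 ^ n + 1).Prime → ¬ (k * 2 ^ n + 1 ∣ Nat.fermatNumber m) := by
  refine ⟨3 * s0 ^ 2, ?_, ?_, ⟨8, by norm_num, prime_d⟩, ?_⟩
  · decide +kernel
  · norm_num [s0]
  · intro m n _ hprime hdvd
    rcases Nat.even_or_odd' n with ⟨i, rfl | rfl⟩
    · exact even_case i m hprime hdvd
    · exact odd_case i hprime

end Pool.Agent.Results.MP_74da6d_nt.NoFermatFactor
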